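import Mathlib
set_option autoImplicit false

/-!
# `B₂` is not primitive pseudoperfect

`A₂ = 3 · 5 · 7 · 11 · 13 = 15015`, so `B₂ = 3 · 5 · 7 · 11 · 17 · 19 = 373065`.  The proper divisor
`19635 = 3 · 5 · 7 · 11 · 17` of `B₂` is pseudoperfect:
`19635 = 6545 + 3927 + 2805 + 1785 + 1309 + 1155 + 935 + 595 + 561 + 17 + 1`.
-/

namespace Pool.Agent.Results.MP_64ebd5_nt.Disproof
open Finset

/-- the `k`-th prime, `p 1 = 2` -/
noncomputable def p (k : ℕ) : ℕ := Nat.nth Nat.Prime (k - 1)

/-- the product `p_k p_{k+1} ⋯ p_j` -/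
noncomputable def block (k j : ℕ) : ℕ := ∏ l ∈ Finset.Icc k j, p l

/-- `f(k)`: the least `j ≥ k` with `σ(p_k ⋯ p_j) ≥ 2 p_k ⋯ p_j` -/
noncomputable def f (k : ℕ) : ℕ :=
  sInf {j : ℕ | k ≤ j ∧ 2 * block k j ≤ ∑ d ∈ (block k j).divisors, d}

/-- `A_k = p_k p_{k+1} ⋯ p_{f(k)}` -/
noncomputable def A (k : ℕ) : ℕ := block k (f k)

/-- `B_k = A_k / p_{f(k)} · p_{f(k)+1} · p_{f(k)+2}` -/
noncomputable def B (k : ℕ) : ℕ := A k / p (f k) * p (f k + 1) * p (f k + 2)

/-- `n` is pseudoperfect (Mathlib's `Nat.Pseudoperfect`: `n > 0` is the sum of a set of proper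
divisors of `n`), and no divisor `d < n` of `n` is pseudoperfect -/
def PrimitivePseudoperfect (n : ℕ) : Prop :=
  n.Pseudoperfect ∧ ∀ d, d ∣ n → d < n → ¬ d.Pseudoperfect

theorem nth_eq {n q : ℕ} (hq : q.Prime) (h : Nat.count Nat.Prime q = n) :
    Nat.nth Nat.Prime n = q := by
  rw [← h]; exact Nat.nth_count hq

theorem p2 : p 2 = 3 := nth_eq (by norm_num) (by decide +kernel)
theorem p3 : p 3 = 5 := nth_eq (by norm_num) (by decide +kernel)
theorem p4 : p 4 = 7 := nth_eq (by norm_num) (by decide +kernel)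
theorem p5 : p 5 = 11 := nth_eq (by norm_num) (by decide +kernel)
theorem p6 : p 6 = 13 := nth_eq (by norm_num) (by decide +kernel)
theorem p7 : p 7 = 17 := nth_eq (by norm_num) (by decide +kernel)
theorem p8 : p 8 = 19 := nth_eq (by norm_num) (by decide +kernel)

theorem block2 : block 2 2 = 3 := by
  unfold block; simp [p2]
theorem block3 : block 2 3 = 15 := by
  unfold block
  rw [show Finset.Icc 2 3 = {2, 3} from rfl]; simp [p2, p3]
theorem block4 : block 2 4 = 105 := by
  unfold block
  rw [show Finset.Icc 2 4 = {2, 3, 4} from rfl]; simp [p2, p3, p4]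
theorem block5 : block 2 5 = 1155 := by
  unfold block
  rw [show Finset.Icc 2 5 = {2, 3, 4, 5} from rfl]; simp [p2, p3, p4, p5]
theorem block6 : block 2 6 = 15015 := by
  unfold block
  rw [show Finset.Icc 2 6 = {2, 3, 4, 5, 6} from rfl]; simp [p2, p3, p4, p5, p6]

theorem f2 : f 2 = 6 := by
  unfold f
  apply le_antisymm
  · apply Nat.sInf_le
    refine ⟨by norm_num, ?_⟩
    rw [block6]
    decide +kernel
  · apply le_csInf
    · refine ⟨6, by norm_num, ?_⟩
      rw [block6]
      decide +kernel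
    · intro j hj
      by_contra hcon
      push Not at hcon
      obtain ⟨h1, h2⟩ := hj
      interval_cases j
      · rw [block2] at h2; revert h2; decide +kernel
      · rw [block3] at h2; revert h2; decide +kernel
      · rw [block4] at h2; revert h2; decide +kernel
      · rw [block5] at h2; revert h2; decide +kernel

theorem B2 : B 2 = 373065 := by
  unfold B A
  rw [f2, block6, p6, p7, p8]

theorem pseudo : Nat.Pseudoperfect 19635 := by
  refine ⟨by norm_num, {6545, 3927, 2805, 1785, 1309, 1155, 935, 595, 561, 17, 1}, ?_, ?_⟩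
  · intro d hd
    rw [Nat.mem_properDivisors]
    simp only [Finset.mem_insert, Finset.mem_singleton] at hd
    rcases hd with rfl | rfl | rfl | rfl | rfl | rfl | rfl | rfl | rfl | rfl | rfl <;>
      refine ⟨by norm_num, by norm_num⟩
  · decide +kernel

/-- **Main theorem.** It is not true that `A_k` and `B_k` are primitive pseudoperfect for all
`k ≥ 2`. -/
theorem result :
    ¬ ∀ k : ℕ, 2 ≤ k → PrimitivePseudoperfect (A k) ∧ PrimitivePseudoperfect (B k) := by
  intro h
  have h1 := (h 2 le_rfl).2.2 19635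
  rw [B2] at h1
  exact h1 (by norm_num) (by norm_num) pseudo

end Pool.Agent.Results.MP_64ebd5_nt.Disproof
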